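import Pool.Agent.R763.StrLevel

set_option autoImplicit false
open Real Set MeasureTheory Filter Topology
open scoped ENNReal NNReal

namespace Pool.Agent.Helper17K9.Str

open Pool.Agent.R763.Str

theorem slope_lower {R : ℝ → ℝ} {d : ℝ} (h : HasDerivAt R d 0) {ε : ℝ} (hε : 0 < ε) :
    ∀ᶠ δ in 𝓝[>] (0:ℝ), (d - ε) * δ ≤ R δ - R 0 := by
  rw [hasDerivAt_iff_isLittleO_nhds_zero] at h
  have h1 := h.def hε
  have h2 : ∀ᶠ δ in 𝓝[>] (0:ℝ), ‖R (0 + δ) - R 0 - δ • d‖ ≤ ε * ‖δ‖ := h1.filter_mono nhdsWithin_le_nhds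
  filter_upwards [h2, self_mem_nhdsWithin] with δ hδ hpos
  have hpos' : 0 < δ := hpos
  rw [zero_add, Real.norm_eq_abs, Real.norm_eq_abs, abs_of_pos hpos', smul_eq_mul] at hδ
  have := (abs_le.1 hδ).1
  linarith

theorem dini_mono {u q : ℝ → ℝ} (hu : Continuous u) (hq : Continuous q)
    (hd : ∀ θ ε, 0 < ε → ∀ᶠ δ in 𝓝[>] (0:ℝ), (q θ - ε) * δ ≤ u (θ + δ) - u θ) {a b : ℝ}
    (hab : a ≤ b) : ∫ t in a..b, q t ≤ u b - u a := by
  have hB : ∀ x, HasDerivAt (fun x => - u a - ∫ t in a..x, q t) (- q x) x := by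
    intro x
    have h1 : HasDerivAt (fun x => ∫ t in a..x, q t) (q x) x :=
      intervalIntegral.integral_hasDerivAt_right (hq.intervalIntegrable _ _)
        (hq.stronglyMeasurableAtFilter _ _) hq.continuousAt
    exact h1.const_sub _
  have key := image_le_of_liminf_slope_right_le_deriv_boundary (f := fun x => - u x) (a := a) (b := b)
    (B := fun x => - u a - ∫ t in a..x, q t) (B' := fun x => - q x)
    hu.neg.continuousOn (by simp)
    (fun x _ => (hB x).continuousAt.continuousWithinAt)
    (fun x _ => (hB x).hasDerivWithinAt) (by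
      intro x _ r hr
      have hε : 0 < (r + q x) / 2 := by linarith
      have h1 := hd x _ hε
      have h2 : ∀ᶠ z in 𝓝[>] x, (q x - (r + q x) / 2) * (z - x) ≤ u z - u x := by
        have ht : Tendsto (fun z => z - x) (𝓝[>] x) (𝓝[>] 0) := by
          rw [tendsto_nhdsWithin_iff]
          constructor
          · have : Tendsto (fun z : ℝ => z - x) (𝓝 x) (𝓝 (x - x)) := tendsto_id.sub_const x
            rw [sub_self] at this
            exact this.mono_left nhdsWithin_le_nhds
          · filter_upwards [self_mem_nhdsWithin] with z hz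
            exact mem_Ioi.2 (sub_pos.2 (mem_Ioi.1 hz))
        filter_upwards [ht.eventually h1] with z hz
        rw [add_sub_cancel] at hz
        exact hz
      apply Eventually.frequently
      filter_upwards [h2, self_mem_nhdsWithin] with z hz hzx
      have hzx' : 0 < z - x := sub_pos.2 hzx
      rw [slope_def_field, div_lt_iff₀ hzx']
      nlinarith)
  have := key (right_mem_Icc.2 hab)
  linarith

theorem dini_deriv {u q : ℝ → ℝ} (hu : Continuous u) (hq : Continuous q)
    (hd : ∀ θ ε, 0 < ε → ∀ᶠ δ in 𝓝[>] (0:ℝ), (q θ - ε) * δ ≤ u (θ + δ) - u θ)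
    (hper : ∀ θ, u (θ + 2 * π) = u θ) (hqper : ∀ θ, q (θ + 2 * π) = q θ)
    (hq0 : ∫ t in (0:ℝ)..(2 * π), q t = 0) (θ : ℝ) : HasDerivAt u (q θ) θ := by
  have hpi := Real.pi_pos
  have key : ∀ a b : ℝ, a ≤ b → b ≤ a + 2 * π → u b = u a + ∫ t in a..b, q t := by
    intro a b h1 h2
    have e1 := dini_mono hu hq hd h1
    have e2 := dini_mono hu hq hd h2
    rw [hper] at e2
    have e3 : ∫ t in a..(a + 2 * π), q t = 0 := by
      have hp : Function.Periodic q (2 * π) := hqper
      have := hp.intervalIntegral_add_eq a 0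
      rw [this, zero_add, hq0]
    have e4 := intervalIntegral.integral_add_adjacent_intervals (hq.intervalIntegrable (μ := volume) a b)
      (hq.intervalIntegrable (μ := volume) b (a + 2 * π))
    linarith
  have h1 : HasDerivAt (fun x => u (θ - π) + ∫ t in (θ - π)..x, q t) (q θ) θ :=
    (intervalIntegral.integral_hasDerivAt_right (hq.intervalIntegrable _ _)
        (hq.stronglyMeasurableAtFilter _ _) hq.continuousAt).const_add _
  apply h1.congr_of_eventuallyEq
  filter_upwards [Icc_mem_nhds (show θ - π < θ by linarith) (show θ < θ + π by linarith)] with x hx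
  exact key _ _ hx.1 (by linarith [hx.2])

end Pool.Agent.Helper17K9.Str
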