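import Mathlib

set_option autoImplicit false
open Real Set Filter Topology

namespace Pool.Agent.Helper17K9.Str

theorem deriv_zero_of_eqOn {F F' : ℝ → ℝ} {a b : ℝ} (h0 : ∀ s, a < s → s < b → F s = 0)
    (hd : ∀ s, HasDerivAt F (F' s) s) : ∀ s, a < s → s < b → F' s = 0 := by
  intro s h1 h2
  have h3 : F =ᶠ[𝓝 s] fun _ => (0:ℝ) := by
    filter_upwards [Ioo_mem_nhds h1 h2] with t ht
    exact h0 t ht.1 ht.2
  exact (hd s).unique ((hasDerivAt_const s (0:ℝ)).congr_of_eventuallyEq h3)

theorem hasDerivAt_plus {g g' : ℝ → ℝ} (hg : ∀ x, HasDerivAt g (g' x) x) (θ s : ℝ) :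
    HasDerivAt (fun s => g (θ + s)) (g' (θ + s)) s := by
  simpa using (hg (θ + s)).comp_const_add θ s

theorem hasDerivAt_minus {g g' : ℝ → ℝ} (hg : ∀ x, HasDerivAt g (g' x) x) (θ s : ℝ) :
    HasDerivAt (fun s => g (θ - s)) (- g' (θ - s)) s := by
  simpa using (hg (θ - s)).comp_const_sub θ s

theorem hasDerivAt_sin2 (c s : ℝ) : HasDerivAt (fun s => sin (2 * s) * c) (2 * cos (2 * s) * c) s := by
  have h1 : HasDerivAt (fun s : ℝ => 2 * s) 2 s := by
    simpa using (hasDerivAt_id s).const_mul (2:ℝ)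
  have h2 := (h1.sin).mul_const c
  exact h2.congr_deriv (by ring)

theorem hasDerivAt_cos2 (c s : ℝ) : HasDerivAt (fun s => cos (2 * s) * c) (- (2 * sin (2 * s)) * c) s := by
  have h1 : HasDerivAt (fun s : ℝ => 2 * s) 2 s := by
    simpa using (hasDerivAt_id s).const_mul (2:ℝ)
  have h2 := (h1.cos).mul_const c
  exact h2.congr_deriv (by ring)

/-- The functional equation `f (θ + s) - f (θ - s) = sin (2 s) f' θ` characterises the second
harmonics. -/
theorem trig_of_functional {f : ℝ → ℝ} {s1 : ℝ} (hs1 : 0 ≤ s1) (hs1' : s1 < π / 2)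
    (h : ∀ s, s1 < s → s < π / 2 → ∀ θ, HasDerivAt f ((f (θ + s) - f (θ - s)) / sin (2 * s)) θ) :
    ∃ A B C : ℝ, ∀ θ, f θ = A + B * cos (2 * θ) + C * sin (2 * θ) := by
  have hpi := Real.pi_pos
  set s0 := (s1 + π / 2) / 2 with hs0
  have hs0a : s1 < s0 := by rw [hs0]; linarith
  have hs0b : s0 < π / 2 := by rw [hs0]; linarith
  set D : (ℝ → ℝ) → ℝ → ℝ := fun g θ => (g (θ + s0) - g (θ - s0)) / sin (2 * s0) with hD
  have hDd : ∀ g g' : ℝ → ℝ, (∀ x, HasDerivAt g (g' x) x) → ∀ x, HasDerivAt (D g) (D g' x) x := by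
    intro g g' hg x
    have h1 : HasDerivAt (fun x => g (x + s0)) (g' (x + s0)) x := (hg (x + s0)).comp_add_const x s0
    have h2 : HasDerivAt (fun x => g (x - s0)) (g' (x - s0)) x := (hg (x - s0)).comp_sub_const x s0
    exact (h1.sub h2).div_const _
  set f1 := D f with hf1
  set f2 := D f1 with hf2
  set f3 := D f2 with hf3
  have d1 : ∀ x, HasDerivAt f (f1 x) x := fun x => h s0 hs0a hs0b x
  have d2 : ∀ x, HasDerivAt f1 (f2 x) x := hDd f f1 d1
  have d3 : ∀ x, HasDerivAt f2 (f3 x) x := hDd f1 f2 d2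
  have hf3c : Continuous f3 := by
    have c2 : Continuous f2 := continuous_iff_continuousAt.2 fun x => (d3 x).continuousAt
    rw [hf3, hD]
    fun_prop
  have hf1c : Continuous f1 := continuous_iff_continuousAt.2 fun x => (d2 x).continuousAt
  have e0 : ∀ θ s, s1 < s → s < π / 2 → f (θ + s) - f (θ - s) - sin (2 * s) * f1 θ = 0 := by
    intro θ s h1 h2
    have h3 := (h s h1 h2 θ).unique (d1 θ)
    have hsin2 : 0 < sin (2 * s) := by
      apply Real.sin_pos_of_pos_of_lt_pi <;> linarith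
    rw [div_eq_iff hsin2.ne'] at h3
    rw [h3]; ring
  have e1 : ∀ θ s, s1 < s → s < π / 2 → f1 (θ + s) + f1 (θ - s) - 2 * cos (2 * s) * f1 θ = 0 := by
    intro θ
    refine deriv_zero_of_eqOn (e0 θ) (fun s => ?_)
    have := ((hasDerivAt_plus d1 θ s).sub (hasDerivAt_minus d1 θ s)).sub (hasDerivAt_sin2 (f1 θ) s)
    exact this.congr_deriv (by ring)
  have e2 : ∀ θ s, s1 < s → s < π / 2 → f2 (θ + s) - f2 (θ - s) + 4 * (sin (2 * s) * f1 θ) = 0 := by
    intro θ
    refine deriv_zero_of_eqOn (F := fun s => f1 (θ + s) + f1 (θ - s) - 2 * (cos (2 * s) * f1 θ))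
      (fun s h1 h2 => by have := e1 θ s h1 h2; linarith) (fun s => ?_)
    have := ((hasDerivAt_plus d2 θ s).add (hasDerivAt_minus d2 θ s)).sub
      ((hasDerivAt_cos2 (f1 θ) s).const_mul 2)
    exact this.congr_deriv (by ring)
  have e3 : ∀ θ s, s1 < s → s < π / 2 → f3 (θ + s) + f3 (θ - s) + 8 * (cos (2 * s) * f1 θ) = 0 := by
    intro θ
    refine deriv_zero_of_eqOn (e2 θ) (fun s => ?_)
    have := ((hasDerivAt_plus d3 θ s).sub (hasDerivAt_minus d3 θ s)).add
      ((hasDerivAt_sin2 (f1 θ) s).const_mul 4)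
    exact this.congr_deriv (by ring)
  set q : ℝ → ℝ := fun x => f3 x + 4 * f1 x with hq
  have e4 : ∀ θ s, s1 < s → s < π / 2 → q (θ + s) = - q (θ - s) := by
    intro θ s h1 h2
    have a1 := e1 θ s h1 h2
    have a3 := e3 θ s h1 h2
    simp only [hq]
    linarith
  -- `q` is locally constant
  have e5 : ∀ x d, 0 ≤ d → d < π / 2 - s1 → q (x + d) = q x := by
    intro x d hd0 hd
    -- x = θ - s, x + d = θ' - s', θ + s = θ' + s'
    set sA := s1 + (π / 2 - s1) * (3 / 4) with hsA
    have a1 : s1 < sA := by rw [hsA]; nlinarith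
    have a2 : sA < π / 2 := by rw [hsA]; nlinarith
    have b1 : s1 < sA - d / 2 := by rw [hsA]; nlinarith
    have b2 : sA - d / 2 < π / 2 := by linarith
    have h1 := e4 (x + sA) sA a1 a2
    have h2 := e4 (x + sA + d / 2) (sA - d / 2) b1 b2
    rw [show x + sA - sA = x by ring] at h1
    rw [show x + sA + d / 2 + (sA - d / 2) = x + sA + sA by ring,
      show x + sA + d / 2 - (sA - d / 2) = x + d by ring] at h2
    linarith
  have hqd : ∀ x, HasDerivAt q 0 x := by
    intro x
    have hε : 0 < (π / 2 - s1) / 2 := by linarith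
    have : q =ᶠ[𝓝 x] fun _ => q (x - (π / 2 - s1) / 4) := by
      filter_upwards [Ioo_mem_nhds (show x - (π / 2 - s1) / 4 < x by linarith)
        (show x < x + (π / 2 - s1) / 4 by linarith)] with y hy
      have := e5 (x - (π / 2 - s1) / 4) (y - (x - (π / 2 - s1) / 4)) (by linarith [hy.1])
        (by linarith [hy.2])
      rw [add_sub_cancel] at this
      exact this
    exact (hasDerivAt_const x _).congr_of_eventuallyEq this
  have hqc : ∀ x, q x = 0 := by
    have hc : ∀ x y, q x = q y := fun x y =>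
      is_const_of_deriv_eq_zero (fun x => (hqd x).differentiableAt) (fun x => (hqd x).deriv) x y
    intro x
    have h1 := e4 x s0 hs0a hs0b
    rw [hc (x + s0) x, hc (x - s0) x] at h1
    linarith
  have hu : ∀ x, HasDerivAt (fun x => f2 x + 4 * f x) 0 x := by
    intro x
    have := (d3 x).add ((d1 x).const_mul 4)
    exact this.congr_deriv (hqc x)
  have huc : ∀ x, f2 x + 4 * f x = f2 0 + 4 * f 0 := fun x =>
    is_const_of_deriv_eq_zero (fun x => (hu x).differentiableAt) (fun x => (hu x).deriv) x 0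
  set A := (f2 0 + 4 * f 0) / 4 with hA
  have hf2' : ∀ x, f2 x = 4 * A - 4 * f x := by
    intro x; have := huc x; rw [hA]; linarith
  have k1 : ∀ x : ℝ, HasDerivAt (fun x => cos (2 * x)) (-(2 * sin (2 * x))) x := by
    intro x; simpa using hasDerivAt_cos2 1 x
  have k2 : ∀ x : ℝ, HasDerivAt (fun x => sin (2 * x)) (2 * cos (2 * x)) x := by
    intro x; simpa using hasDerivAt_sin2 1 x
  have ha : ∀ x, (f x - A) * cos (2 * x) - f1 x / 2 * sin (2 * x) = f 0 - A := by
    have hd : ∀ x, HasDerivAt (fun x => (f x - A) * cos (2 * x) - f1 x / 2 * sin (2 * x)) 0 x := by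
      intro x
      have := (((d1 x).sub_const A).mul (k1 x)).sub (((d2 x).div_const 2).mul (k2 x))
      refine this.congr_deriv ?_
      rw [hf2']; ring
    intro x
    have := is_const_of_deriv_eq_zero (fun x => (hd x).differentiableAt) (fun x => (hd x).deriv) x 0
    simpa using this
  have hb : ∀ x, (f x - A) * sin (2 * x) + f1 x / 2 * cos (2 * x) = f1 0 / 2 := by
    have hd : ∀ x, HasDerivAt (fun x => (f x - A) * sin (2 * x) + f1 x / 2 * cos (2 * x)) 0 x := by
      intro x
      have := (((d1 x).sub_const A).mul (k2 x)).add (((d2 x).div_const 2).mul (k1 x))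
      refine this.congr_deriv ?_
      rw [hf2']; ring
    intro x
    have := is_const_of_deriv_eq_zero (fun x => (hd x).differentiableAt) (fun x => (hd x).deriv) x 0
    simpa using this
  refine ⟨A, f 0 - A, f1 0 / 2, fun θ => ?_⟩
  have h1 := ha θ
  have h2 := hb θ
  have h3 := Real.sin_sq_add_cos_sq (2 * θ)
  linear_combination (cos (2 * θ)) * h1 + (sin (2 * θ)) * h2 - (f θ - A) * h3

end Pool.Agent.Helper17K9.Str
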