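import Pool.Agent.Helper17K9.Str.Even
import Pool.Agent.Helper17K9.Str.Trig

set_option autoImplicit false
open Real Set MeasureTheory Filter Topology
open scoped ENNReal NNReal

namespace Pool.Agent.Helper17K9.Str

open Pool.Agent.R763.Str

variable {K : Set E2}

/-- the linear map with lower triangular matrix `(a, 0; b, c)` -/
noncomputable def lowTri (a b c : ℝ) (ha : a ≠ 0) (hc : c ≠ 0) : E2 ≃ₗ[ℝ] E2 where
  toFun x := !₂[a * x 0, b * x 0 + c * x 1]
  invFun y := !₂[y 0 / a, (y 1 - b * (y 0 / a)) / c]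
  map_add' x y := by
    ext i; fin_cases i <;> simp <;> ring
  map_smul' t x := by
    ext i; fin_cases i <;> simp <;> ring
  left_inv x := by
    ext i; fin_cases i
    · simp [ha]
    · simp [ha, hc]
  right_inv y := by
    ext i; fin_cases i
    · simp; field_simp
    · simp; field_simp; ring

theorem lowTri_apply_zero (a b c : ℝ) (ha : a ≠ 0) (hc : c ≠ 0) (x : E2) :
    lowTri a b c ha hc x 0 = a * x 0 := rfl

theorem lowTri_apply_one (a b c : ℝ) (ha : a ≠ 0) (hc : c ≠ 0) (x : E2) :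
    lowTri a b c ha hc x 1 = b * x 0 + c * x 1 := rfl

theorem pr_lowTri (a b c : ℝ) (ha : a ≠ 0) (hc : c ≠ 0) (x : E2) (θ : ℝ) :
    pr (lowTri a b c ha hc x) θ = x 0 * (a * cos θ + b * sin θ) + x 1 * (c * sin θ) := by
  unfold pr
  rw [lowTri_apply_zero, lowTri_apply_one]; ring

theorem eq_of_hs_eq {K L : Set E2} (hK : IsCompact K) (hKc : Convex ℝ K) (hKn : K.Nonempty)
    (hL : IsCompact L) (hLc : Convex ℝ L) (hLn : L.Nonempty) (h : ∀ θ, hs K θ = hs L θ) : K = L := by
  ext x
  rw [mem_iff hK hKc hKn, mem_iff hL hLc hLn]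
  simp only [h]

theorem hs_lowTri_ball (a b c : ℝ) (ha : a ≠ 0) (hc : c ≠ 0) (θ : ℝ) :
    hs (lowTri a b c ha hc '' Metric.closedBall 0 1) θ =
      √((a * cos θ + b * sin θ) ^ 2 + (c * sin θ) ^ 2) := by
  set p := a * cos θ + b * sin θ with hp
  set q := c * sin θ with hq
  have hcont : Continuous (lowTri a b c ha hc) :=
    LinearMap.continuous_of_finiteDimensional (lowTri a b c ha hc).toLinearMap
  have hcomp : IsCompact (lowTri a b c ha hc '' Metric.closedBall 0 1) :=
    (isCompact_closedBall (0 : E2) 1).image hcont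
  have hne : (lowTri a b c ha hc '' Metric.closedBall 0 1).Nonempty :=
    ⟨_, mem_image_of_mem _ (Metric.mem_closedBall_self (by norm_num))⟩
  apply le_antisymm
  · apply hs_le hcomp hne
    rintro _ ⟨x, hx, rfl⟩
    rw [pr_lowTri, ← hp, ← hq]
    apply Real.le_sqrt_of_sq_le
    have hx1 : ‖x‖ ≤ 1 := by simpa using hx
    have hx2 : x 0 ^ 2 + x 1 ^ 2 ≤ 1 := by
      rw [← norm_sq_eq]
      have := norm_nonneg x
      nlinarith
    have h1 : (x 0 * p + x 1 * q) ^ 2 ≤ (x 0 ^ 2 + x 1 ^ 2) * (p ^ 2 + q ^ 2) := by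
      nlinarith [sq_nonneg (x 0 * q - x 1 * p)]
    have h2 : 0 ≤ p ^ 2 + q ^ 2 := by positivity
    nlinarith
  · by_cases h0 : p ^ 2 + q ^ 2 = 0
    · rw [h0, Real.sqrt_zero]
      have := le_hs hcomp (mem_image_of_mem (lowTri a b c ha hc)
        (Metric.mem_closedBall_self (x := (0 : E2)) (ε := 1) (by norm_num))) θ
      rw [pr_lowTri] at this
      simpa using this
    · have hpos : 0 < p ^ 2 + q ^ 2 := lt_of_le_of_ne (by positivity) (Ne.symm h0)
      set n := √(p ^ 2 + q ^ 2) with hn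
      have hnpos : 0 < n := Real.sqrt_pos.2 hpos
      have hn2 : n ^ 2 = p ^ 2 + q ^ 2 := Real.sq_sqrt hpos.le
      set x : E2 := !₂[p / n, q / n] with hx
      have hx0 : x 0 = p / n := rfl
      have hx1 : x 1 = q / n := rfl
      have hxn : ‖x‖ ≤ 1 := by
        have : ‖x‖ ^ 2 = 1 := by
          rw [norm_sq_eq, hx0, hx1, div_pow, div_pow, ← add_div, ← hn2]
          exact div_self (by positivity)
        have h0 := norm_nonneg x
        nlinarith
      have := le_hs hcomp (mem_image_of_mem (lowTri a b c ha hc)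
        (show x ∈ Metric.closedBall (0 : E2) 1 by simpa using hxn)) θ
      rw [pr_lowTri, hx0, hx1, ← hp, ← hq] at this
      have e : p / n * p + q / n * q = n := by
        field_simp
        linarith
      rw [e] at this
      exact this

/-- a convex body whose support function squared is a positive second harmonic is an ellipse -/
theorem ellipse_of_trig (hK : IsCompact K) (hc : Convex ℝ K) (hne : K.Nonempty)
    (hpos : ∀ θ, 0 < hs K θ) {A B C : ℝ}
    (h : ∀ θ, hs K θ ^ 2 = A + B * cos (2 * θ) + C * sin (2 * θ)) :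
    ∃ (a b c : ℝ) (ha : a ≠ 0) (hc' : c ≠ 0), K = lowTri a b c ha hc' '' Metric.closedBall 0 1 := by
  have hq : ∀ x y : ℝ, (x, y) ≠ (0, 0) → 0 < (A + B) * x ^ 2 + 2 * C * x * y + (A - B) * y ^ 2 := by
    intro x y hxy
    obtain ⟨θ, h1, h2⟩ := exists_polar x y
    set r := √(x ^ 2 + y ^ 2) with hr
    have hr0 : r ≠ 0 := by
      intro h0
      rw [h0, zero_mul] at h1 h2
      exact hxy (by rw [h1, h2])
    have h3 := h θ
    have h4 := hpos θ
    have h5 : (A + B) * x ^ 2 + 2 * C * x * y + (A - B) * y ^ 2 = r ^ 2 * hs K θ ^ 2 := by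
      rw [h3, Real.cos_two_mul, Real.sin_two_mul, h1, h2]
      have := Real.sin_sq_add_cos_sq θ
      have e : sin θ ^ 2 = 1 - cos θ ^ 2 := by linarith
      have : (r * sin θ) ^ 2 = r ^ 2 * (1 - cos θ ^ 2) := by rw [mul_pow, e]
      rw [this]; ring
    rw [h5]
    positivity
  have hAB : 0 < A + B := by
    have := hq 1 0 (by simp)
    simpa using this
  have hdet : 0 < (A - B) * (A + B) - C ^ 2 := by
    have := hq (-C) (A + B) (by simp [hAB.ne'])
    have e : (A + B) * (-C) ^ 2 + 2 * C * (-C) * (A + B) + (A - B) * (A + B) ^ 2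
        = (A + B) * ((A - B) * (A + B) - C ^ 2) := by ring
    rw [e] at this
    exact (mul_pos_iff_of_pos_left hAB).1 this
  set a := √(A + B) with ha
  have hapos : 0 < a := Real.sqrt_pos.2 hAB
  have ha2 : a ^ 2 = A + B := Real.sq_sqrt hAB.le
  set c := √(((A - B) * (A + B) - C ^ 2) / (A + B)) with hcdef
  have hcpos : 0 < c := Real.sqrt_pos.2 (by positivity)
  have hc2 : c ^ 2 = ((A - B) * (A + B) - C ^ 2) / (A + B) := Real.sq_sqrt (by positivity)
  refine ⟨a, C / a, c, hapos.ne', hcpos.ne', ?_⟩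
  have hcont : Continuous (lowTri a (C / a) c hapos.ne' hcpos.ne') :=
    LinearMap.continuous_of_finiteDimensional (lowTri a (C / a) c hapos.ne' hcpos.ne').toLinearMap
  apply eq_of_hs_eq hK hc hne ((isCompact_closedBall (0 : E2) 1).image hcont)
    ((convex_closedBall (0 : E2) 1).linear_image (lowTri a (C / a) c hapos.ne' hcpos.ne').toLinearMap)
    ⟨_, mem_image_of_mem _ (Metric.mem_closedBall_self (by norm_num))⟩
  intro θ
  rw [hs_lowTri_ball]
  have h1 := h θ
  rw [← Real.sqrt_sq (hpos θ).le, h1]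
  congr 1
  rw [Real.cos_two_mul, Real.sin_two_mul, mul_pow c, hc2]
  have e : sin θ ^ 2 = 1 - cos θ ^ 2 := by linarith [Real.sin_sq_add_cos_sq θ]
  have e2 : (a * cos θ + C / a * sin θ) ^ 2
      = a ^ 2 * cos θ ^ 2 + 2 * C * cos θ * sin θ + C ^ 2 / a ^ 2 * sin θ ^ 2 := by
    field_simp
    ring
  rw [e2, ha2, e]
  field_simp
  ring

end Pool.Agent.Helper17K9.Str
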