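import Pool.Agent.Helper17K9.Str.Odd

set_option autoImplicit false
open Real Set MeasureTheory Filter Topology
open scoped ENNReal NNReal

namespace Pool.Agent.Helper17K9.Str

open Pool.Agent.R763.Str

variable {K : Set E2}

theorem trans_compact (hK : IsCompact K) (v : E2) : IsCompact ((fun x => x + v) '' K) :=
  hK.image (by fun_prop)

theorem trans_convex (hc : Convex ℝ K) (v : E2) : Convex ℝ ((fun x => x + v) '' K) := by
  have := hc.translate v
  have e : (fun x : E2 => x + v) = (fun x => v + x) := by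
    funext y; exact add_comm _ _
  rw [e]; exact this

theorem hs_translate' (hK : IsCompact K) (hne : K.Nonempty) (v : E2) :
    hs ((fun x => x + v) '' K) = fun θ => hs K θ + pr v θ := by
  funext θ; exact hs_translate hK hne v θ

theorem FF_trans (hK : IsCompact K) (hne : K.Nonempty) (v x : E2) :
    FF (hs ((fun x => x + v) '' K)) (x + v) = FF (hs K) x := by
  rw [hs_translate' hK hne]
  exact FF_translate (hs_continuous hK hne) x v

theorem LL_trans (hK : IsCompact K) (hne : K.Nonempty) (v : E2) (l : ℝ) :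
    LL (hs ((fun x => x + v) '' K)) l = (fun x => x + v) '' (LL (hs K) l) := by
  ext x
  constructor
  · intro hx
    refine ⟨x - v, ?_, by simp⟩
    have : FF (hs ((fun x => x + v) '' K)) x ≤ l := hx
    rw [← sub_add_cancel x v, FF_trans hK hne] at this
    exact this
  · rintro ⟨y, hy, rfl⟩
    show FF (hs ((fun x => x + v) '' K)) (y + v) ≤ l
    rw [FF_trans hK hne]
    exact hy

/-- the hypothesis is invariant under translations -/
theorem Hyp_trans (hK : IsCompact K) (hne : K.Nonempty) (hLc : ∀ l, IsCompact (LL (hs K) l))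
    (hLne : ∀ l, W K < l → (LL (hs K) l).Nonempty) (v : E2) (hyp : Hyp K) :
    Hyp ((fun x => x + v) '' K) := by
  intro l hl x y hxy hW
  rw [W_translate hK hne] at hl
  rw [LL_trans hK hne] at hxy hW
  rw [W_translate (hLc l) (hLne l hl)] at hW
  rw [← sub_add_cancel x v] at hxy hW ⊢
  rw [← sub_add_cancel y v] at hxy ⊢
  rw [FF_trans (hLc l) (hLne l hl)] at hxy hW
  rw [FF_trans (hLc l) (hLne l hl)] at hxy
  rw [FF_trans hK hne, FF_trans hK hne]
  exact hyp l hl _ _ hxy hW

/-- the square of the support function of a symmetric body satisfies a functional equation -/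
theorem even_deriv (hK : IsCompact K) (h0 : (0 : E2) ∈ interior K) (hyp : Hyp K)
    (hev : ∀ θ, hs K (θ + π) = hs K θ) :
    ∃ s1, 0 ≤ s1 ∧ s1 < π / 2 ∧ ∀ s, s1 < s → s < π / 2 → ∀ θ,
      HasDerivAt (fun θ => hs K θ ^ 2) ((hs K (θ + s) ^ 2 - hs K (θ - s) ^ 2) / sin (2 * s)) θ := by
  have hpi := Real.pi_pos
  have hne : K.Nonempty := ⟨0, interior_subset h0⟩
  have hh := hs_continuous hK hne
  obtain ⟨s1, hs1, hs1', hlev⟩ := level hK h0 hyp
  refine ⟨s1, hs1, hs1', ?_⟩
  intro s hsa hsb
  have hs0 : 0 < s := lt_of_le_of_lt hs1 hsa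
  have hcos : 0 < cos s := Real.cos_pos_of_mem_Ioo ⟨by linarith, hsb⟩
  have hsin : 0 < sin s := Real.sin_pos_of_pos_of_lt_pi hs0 (by linarith)
  have hsin2 : 0 < sin (2 * s) := by rw [Real.sin_two_mul]; positivity
  refine dini_deriv (u := fun θ => hs K θ ^ 2)
    (q := fun θ => (hs K (θ + s) ^ 2 - hs K (θ - s) ^ 2) / sin (2 * s)) (by fun_prop) (by fun_prop)
    ?_ ?_ ?_ ?_
  · intro θ ε hε
    obtain ⟨g, c, hgpos, hgo, hge, hgθ, hgφ⟩ := hlev s hsa hsb θ
    set m := (hs K (θ + s) - hs K (θ - s)) / (2 * sin s) with hm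
    set S := g θ with hS
    have hSpos : 0 < S := hgpos θ
    have hgev : ∀ φ, g (φ + π) = g φ := by
      intro φ
      have := hgo φ
      rw [hev] at this
      linarith
    have hg2 : ∀ φ, g φ ^ 2 = hs K φ ^ 2 + c := by
      intro φ
      have := hge φ
      rw [hev, hgev] at this
      rw [show (g φ + g φ) / 2 = g φ by ring, show (hs K φ + hs K φ) / 2 = hs K φ by ring] at this
      exact this
    have hderiv : HasDerivAt (fun δ : ℝ => (cos δ * S + sin δ * m) ^ 2) (2 * S * m) 0 := by
      have h1 := (((Real.hasDerivAt_cos 0).mul_const S).add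
        ((Real.hasDerivAt_sin 0).mul_const m)).pow 2
      exact h1.congr_deriv (by simp)
    have hsl := slope_lower hderiv hε
    have hcont : Continuous (fun δ : ℝ => cos δ * S + sin δ * m) := by fun_prop
    have hpos : ∀ᶠ δ in 𝓝[>] (0:ℝ), 0 < cos δ * S + sin δ * m := by
      have h1 : Tendsto (fun δ : ℝ => cos δ * S + sin δ * m) (𝓝 0) (𝓝 S) := by
        have := hcont.tendsto 0
        simpa using this
      exact (h1.eventually (lt_mem_nhds hSpos)).filter_mono nhdsWithin_le_nhds
    filter_upwards [hsl, hpos, self_mem_nhdsWithin] with δ hδ hδp hδpos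
    have hδ0 : 0 < δ := hδpos
    have h1 := hgφ (θ + δ)
    rw [show θ + δ - θ = δ by ring] at h1
    have h2 : (cos δ * S + sin δ * m) ^ 2 ≤ g (θ + δ) ^ 2 := pow_le_pow_left₀ hδp.le h1 2
    rw [hg2] at h2
    have h3 := hg2 θ
    simp only [Real.cos_zero, Real.sin_zero, one_mul, zero_mul, add_zero] at hδ
    have h4 : (hs K (θ + s) ^ 2 - hs K (θ - s) ^ 2) / sin (2 * s) = 2 * S * m := by
      rw [hgθ, hm, Real.sin_two_mul]
      field_simp
      ring
    show ((hs K (θ + s) ^ 2 - hs K (θ - s) ^ 2) / sin (2 * s) - ε) * δ ≤ hs K (θ + δ) ^ 2 - hs K θ ^ 2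
    rw [h4]
    linarith
  · intro θ
    show hs K (θ + 2 * π) ^ 2 = _
    rw [hs_periodic]
  · intro θ
    show (hs K (θ + 2 * π + s) ^ 2 - hs K (θ + 2 * π - s) ^ 2) / sin (2 * s) = _
    rw [show θ + 2 * π + s = θ + s + 2 * π by ring, show θ + 2 * π - s = θ - s + 2 * π by ring,
      hs_periodic, hs_periodic]
  · have hp : Function.Periodic (fun θ => hs K θ ^ 2) (2 * π) := by
      intro θ; simp only [hs_periodic]
    rw [intervalIntegral.integral_div, intervalIntegral.integral_sub
      (Continuous.intervalIntegrable (by fun_prop) _ _) (Continuous.intervalIntegrable (by fun_prop) _ _)]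
    have e1 := intervalIntegral.integral_comp_add_right (a := 0) (b := 2 * π) (fun t => hs K t ^ 2) s
    have e2 := intervalIntegral.integral_comp_sub_right (a := 0) (b := 2 * π) (fun t => hs K t ^ 2) s
    rw [e1, e2]
    have e3 := hp.intervalIntegral_add_eq (0 + s) (0 - s)
    rw [show 0 + s + 2 * π = 2 * π + s by ring, show 0 - s + 2 * π = 2 * π - s by ring] at e3
    rw [e3]; simp

end Pool.Agent.Helper17K9.Str
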