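import Pool.Agent.Helper17K9.Str.Ell

set_option autoImplicit false
open Real Set MeasureTheory Filter Topology
open scoped ENNReal NNReal

namespace Pool.Agent.Helper17K9.Str

open Pool.Agent.R763.Str

variable {K : Set E2}

theorem W_pos (hK : IsCompact K) (h0 : (0 : E2) ∈ interior K) : ∀ θ, 0 ≤ hs K θ := by
  obtain ⟨r, hr, hlow⟩ := pos_of_interior hK h0
  exact fun θ => hr.le.trans (hlow θ)

/-- a translate with the origin in the interior -/
theorem exists_center (hK : IsCompact K) (hint : (interior K).Nonempty) :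
    ∃ v : E2, (0 : E2) ∈ interior ((fun x => x + v) '' K) := by
  obtain ⟨x0, hx0⟩ := hint
  set f : E2 ≃ᵢ E2 := IsometryEquiv.addRight (-x0) with hf
  refine ⟨-x0, ?_⟩
  have := f.toHomeomorph.image_interior K
  show (0 : E2) ∈ interior (f.toHomeomorph '' K)
  rw [← this]
  exact ⟨x0, hx0, by simp [hf]⟩

theorem LL_compact' (hK : IsCompact K) (hint : (interior K).Nonempty) (l : ℝ) :
    IsCompact (LL (hs K) l) := by
  obtain ⟨v, hv⟩ := exists_center hK hint
  have hne : K.Nonempty := hint.mono interior_subset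
  have h1 := LL_compact (hs_continuous (trans_compact hK v) (hne.image _))
    (hs_periodic _) (W_pos (trans_compact hK v) hv) l
  rw [LL_trans hK hne] at h1
  have h2 := trans_compact h1 (-v)
  rw [← image_comp] at h2
  have e : (fun x : E2 => x + -v) ∘ (fun x => x + v) = id := by
    funext x; simp
  rw [e, image_id] at h2
  exact h2

theorem LL_interior' (hK : IsCompact K) (hint : (interior K).Nonempty) {l : ℝ} (hl : W K < l) :
    (interior (LL (hs K) l)).Nonempty := by
  obtain ⟨v, hv⟩ := exists_center hK hint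
  have hne : K.Nonempty := hint.mono interior_subset
  have hne' : ((fun x => x + v) '' K).Nonempty := hne.image _
  refine ⟨-v, ?_⟩
  rw [mem_interior]
  refine ⟨{x | FF (hs K) x < l}, fun x hx => (le_of_lt hx : FF (hs K) x ≤ l),
    isOpen_lt (FF_continuous (hs_continuous hK hne)) continuous_const, ?_⟩
  show FF (hs K) (-v) < l
  rw [← FF_trans hK hne v (-v), neg_add_cancel, FF_zero (W_pos (trans_compact hK v) hv)]
  have := W_translate hK hne v
  unfold W at this
  rw [this]
  exact hl

/-- the analytic theorem: a convex body with the (analytic) transitivity property is an ellipse -/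
theorem main_zero (hK : IsCompact K) (hc : Convex ℝ K) (h0 : (0 : E2) ∈ interior K) (hyp : Hyp K) :
    ∃ (a b c : ℝ) (ha : a ≠ 0) (hc' : c ≠ 0) (v : E2),
      K = (fun x => x + v) '' (lowTri a b c ha hc' '' Metric.closedBall 0 1) := by
  have hne : K.Nonempty := ⟨0, interior_subset h0⟩
  have hint : (interior K).Nonempty := ⟨0, h0⟩
  obtain ⟨v, hv⟩ := od_first hK h0 hyp
  obtain ⟨r, hr, hlow⟩ := pos_of_interior hK h0
  set K' := (fun x => x + -v) '' K with hK'
  have hKc' : IsCompact K' := trans_compact hK _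
  have hcc' : Convex ℝ K' := trans_convex hc _
  have hne' : K'.Nonempty := hne.image _
  have hhs : ∀ θ, hs K' θ = (hs K θ + hs K (θ + π)) / 2 := by
    intro θ
    rw [hK', hs_translate hK hne]
    have h1 : pr (-v) θ = - pr v θ := by
      have := pr_smul (-1) v θ
      simpa using this
    rw [h1, ← hv θ]
    unfold od; ring
  have hpos : ∀ θ, 0 < hs K' θ := by
    intro θ
    rw [hhs]
    have := hlow θ
    have := hlow (θ + π)
    linarith
  have h0' : (0 : E2) ∈ interior K' := by
    apply mem_interior_of_lt hKc' hcc' hne'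
    intro θ
    rw [pr_zero]; exact hpos θ
  have hev : ∀ θ, hs K' (θ + π) = hs K' θ := by
    intro θ
    rw [hhs, hhs, hs_period']; ring
  have hyp' : Hyp K' := Hyp_trans hK hne (LL_compact' hK hint)
    (fun l hl => (LL_interior' hK hint hl).mono interior_subset) _ hyp
  obtain ⟨s1, hs1, hs1', hf⟩ := even_deriv hKc' h0' hyp' hev
  obtain ⟨A, B, C, hABC⟩ := trig_of_functional (f := fun θ => hs K' θ ^ 2) hs1 hs1' hf
  obtain ⟨a, b, c, ha, hc', he⟩ := ellipse_of_trig hKc' hcc' hne' hpos hABC
  refine ⟨a, b, c, ha, hc', v, ?_⟩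
  rw [← he, hK', ← image_comp]
  have e : (fun x : E2 => x + v) ∘ (fun x => x + -v) = id := by
    funext x; simp
  rw [e, image_id]

theorem main (hK : IsCompact K) (hc : Convex ℝ K) (hint : (interior K).Nonempty) (hyp : Hyp K) :
    ∃ (a b c : ℝ) (ha : a ≠ 0) (hc' : c ≠ 0) (v : E2),
      K = (fun x => x + v) '' (lowTri a b c ha hc' '' Metric.closedBall 0 1) := by
  obtain ⟨w, hw⟩ := exists_center hK hint
  have hne : K.Nonempty := hint.mono interior_subset
  obtain ⟨a, b, c, ha, hc', v, he⟩ := main_zero (trans_compact hK w) (trans_convex hc w) hw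
    (Hyp_trans hK hne (LL_compact' hK hint)
    (fun l hl => (LL_interior' hK hint hl).mono interior_subset) _ hyp)
  refine ⟨a, b, c, ha, hc', v + -w, ?_⟩
  have h1 : (fun x : E2 => x + -w) '' ((fun x => x + w) '' K) = K := by
    rw [← image_comp]
    have e : (fun x : E2 => x + -w) ∘ (fun x => x + w) = id := by
      funext x; simp
    rw [e, image_id]
  rw [← h1, he, ← image_comp]
  congr 1
  funext x
  simp [add_assoc]

/-- the string transitivity property in terms of the Hausdorff measure -/
theorem hyp_of (hK : IsCompact K) (hc : Convex ℝ K) (hint : (interior K).Nonempty)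
    (H : ∀ ℓ1 : ℝ, (μH[1] (frontier K)).toReal < ℓ1 → ∀ ℓ2 : ℝ,
      (μH[1] (frontier {x : E2 | (μH[1] (frontier (convexHull ℝ (insert x K)))).toReal ≤ ℓ1})).toReal
        < ℓ2 →
      ∃ ℓ3 : ℝ, {y : E2 | (μH[1] (frontier (convexHull ℝ (insert y
        {x : E2 | (μH[1] (frontier (convexHull ℝ (insert x K)))).toReal ≤ ℓ1})))).toReal = ℓ2}
        = {y : E2 | (μH[1] (frontier (convexHull ℝ (insert y K)))).toReal = ℓ3}) : Hyp K := by
  intro l hl x y hxy hW
  have e1 : {x : E2 | (μH[1] (frontier (convexHull ℝ (insert x K)))).toReal ≤ l} = LL (hs K) l := by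
    ext x
    show (μH[1] (frontier (convexHull ℝ (insert x K)))).toReal ≤ l ↔ FF (hs K) x ≤ l
    rw [perim_hull hK hc hint]
  have hLc := LL_compact' hK hint l
  have hLi := LL_interior' hK hint hl
  have hLconv : Convex ℝ (LL (hs K) l) := LL_convex (hs_continuous hK (hint.mono interior_subset)) l
  obtain ⟨ℓ3, h3⟩ := H l (by rw [perim_toReal hK hc hint]; exact hl)
    (FF (hs (LL (hs K) l)) x) (by rw [e1, perim_toReal hLc hLconv hLi]; exact hW)
  rw [e1] at h3
  have hx : x ∈ {y : E2 | (μH[1] (frontier (convexHull ℝ (insert y (LL (hs K) l))))).toReal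
      = FF (hs (LL (hs K) l)) x} := by
    show (μH[1] (frontier (convexHull ℝ (insert x (LL (hs K) l))))).toReal = _
    rw [perim_hull hLc hLconv hLi]
  have hy : y ∈ {y : E2 | (μH[1] (frontier (convexHull ℝ (insert y (LL (hs K) l))))).toReal
      = FF (hs (LL (hs K) l)) x} := by
    show (μH[1] (frontier (convexHull ℝ (insert y (LL (hs K) l))))).toReal = _
    rw [perim_hull hLc hLconv hLi, hxy]
  rw [h3] at hx hy
  have hx' : (μH[1] (frontier (convexHull ℝ (insert x K)))).toReal = ℓ3 := hx
  have hy' : (μH[1] (frontier (convexHull ℝ (insert y K)))).toReal = ℓ3 := hy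
  rw [perim_hull hK hc hint] at hx' hy'
  rw [hx', hy']

end Pool.Agent.Helper17K9.Str
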