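import Pool.Agent.Helper17K9.Str.Dini

set_option autoImplicit false
open Real Set MeasureTheory Filter Topology
open scoped ENNReal NNReal

namespace Pool.Agent.Helper17K9.Str

open Pool.Agent.R763.Str

variable {K : Set E2}

/-- odd part of the support function -/
noncomputable def od (K : Set E2) (θ : ℝ) : ℝ := (hs K θ - hs K (θ + π)) / 2

theorem hs_period' (K : Set E2) (θ : ℝ) : hs K (θ + π + π) = hs K θ := by
  rw [← hs_periodic K θ]; congr 1; ring

theorem od_continuous (hK : IsCompact K) (hne : K.Nonempty) : Continuous (od K) := by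
  have := hs_continuous hK hne
  unfold od
  fun_prop

theorem od_anti (K : Set E2) (θ : ℝ) : od K (θ + π) = - od K θ := by
  unfold od
  rw [hs_period']; ring

theorem od_periodic (K : Set E2) (θ : ℝ) : od K (θ + 2 * π) = od K θ := by
  rw [show θ + 2 * π = θ + π + π by ring, od_anti, od_anti]; ring

theorem lip_sq (hK : IsCompact K) (hne : K.Nonempty) {R : ℝ} (hR0 : 0 < R)
    (hR : K ⊆ Metric.closedBall 0 R) (hup : ∀ θ, |hs K θ| ≤ R) (θ δ : ℝ) :
    |((hs K (θ + δ) + hs K (θ + δ + π)) / 2) ^ 2 - ((hs K θ + hs K (θ + π)) / 2) ^ 2|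
      ≤ 2 * R ^ 2 * |δ| := by
  have h1 := hs_lip hK hne hR (θ + δ) θ
  have h2 := hs_lip hK hne hR (θ + δ + π) (θ + π)
  rw [show θ + δ - θ = δ by ring] at h1
  rw [show θ + δ + π - (θ + π) = δ by ring] at h2
  have a1 := hup (θ + δ)
  have a2 := hup (θ + δ + π)
  have a3 := hup θ
  have a4 := hup (θ + π)
  set A := hs K (θ + δ)
  set B := hs K (θ + δ + π)
  set C := hs K θ
  set D := hs K (θ + π)
  have e : ((A + B) / 2) ^ 2 - ((C + D) / 2) ^ 2 = ((A - C) + (B - D)) / 2 * (((A + B) + (C + D)) / 2) := by
    ring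
  rw [e, abs_mul]
  have b1 : |((A - C) + (B - D)) / 2| ≤ R * |δ| := by
    rw [abs_div, abs_two, div_le_iff₀ (by norm_num)]
    refine (abs_add_le _ _).trans ?_
    linarith
  have b2 : |((A + B) + (C + D)) / 2| ≤ 2 * R := by
    rw [abs_div, abs_two, div_le_iff₀ (by norm_num)]
    have := abs_add_le (A + B) (C + D)
    have := abs_add_le A B
    have := abs_add_le C D
    linarith
  calc _ ≤ (R * |δ|) * (2 * R) := mul_le_mul b1 b2 (abs_nonneg _) (by positivity)
    _ = _ := by ring

theorem od_deriv (hK : IsCompact K) (h0 : (0 : E2) ∈ interior K) (hyp : Hyp K) (θ : ℝ) :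
    HasDerivAt (od K) (od K (θ + π / 2)) θ := by
  have hpi := Real.pi_pos
  have hne : K.Nonempty := ⟨0, interior_subset h0⟩
  obtain ⟨r, hr, hlow⟩ := pos_of_interior hK h0
  obtain ⟨R', hR'⟩ := hK.isBounded.subset_closedBall 0
  set R := max R' 1 with hRdef
  have hR : K ⊆ Metric.closedBall 0 R := hR'.trans (Metric.closedBall_subset_closedBall (le_max_left _ _))
  have hR0 : 0 < R := lt_of_lt_of_le one_pos (le_max_right _ _)
  have hup : ∀ θ, hs K θ ≤ R := by
    intro θ
    apply hs_le hK hne
    intro y hy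
    exact (pr_le_norm y θ).trans (by simpa using hR hy)
  have habs : ∀ θ, |hs K θ| ≤ R := by
    intro θ
    rw [abs_of_nonneg (hr.le.trans (hlow θ))]; exact hup θ
  have hh := hs_continuous hK hne
  obtain ⟨s1, hs1, hs1', hlev⟩ := level hK h0 hyp
  refine dini_deriv (od_continuous hK hne) (q := fun θ => od K (θ + π / 2)) ?_ ?_ (od_periodic K) ?_ ?_ θ
  · have := od_continuous hK hne
    fun_prop
  · intro θ ε hε
    -- choose s near π/2
    have t1 : Tendsto (fun s : ℝ => (hs K (θ + s) - hs K (θ - s)) / (2 * sin s)) (𝓝[<] (π / 2))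
        (𝓝 (od K (θ + π / 2))) := by
      have hc : ContinuousAt (fun s : ℝ => (hs K (θ + s) - hs K (θ - s)) / (2 * sin s)) (π / 2) := by
        apply ContinuousAt.div
        · apply Continuous.continuousAt; fun_prop
        · apply Continuous.continuousAt; fun_prop
        · simp
      have h1 := hc.tendsto.mono_left (nhdsWithin_le_nhds (s := Iio (π / 2)))
      have e : (hs K (θ + π / 2) - hs K (θ - π / 2)) / (2 * sin (π / 2)) = od K (θ + π / 2) := by
        unfold od
        rw [Real.sin_pi_div_two, ← hs_periodic K (θ - π / 2)]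
        rw [show θ - π / 2 + 2 * π = θ + π / 2 + π by ring, mul_one]
      rw [e] at h1
      exact h1
    have t2 : Tendsto (fun s : ℝ => 2 * R ^ 2 * cos s) (𝓝[<] (π / 2)) (𝓝 0) := by
      have hc : ContinuousAt (fun s : ℝ => 2 * R ^ 2 * cos s) (π / 2) := by
        apply Continuous.continuousAt; fun_prop
      have h1 := hc.tendsto.mono_left (nhdsWithin_le_nhds (s := Iio (π / 2)))
      rw [Real.cos_pi_div_two, mul_zero] at h1
      exact h1
    have t3 : Tendsto (fun s : ℝ => r - R * cos s) (𝓝[<] (π / 2)) (𝓝 r) := by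
      have hc : ContinuousAt (fun s : ℝ => r - R * cos s) (π / 2) := by
        apply Continuous.continuousAt; fun_prop
      have h1 := hc.tendsto.mono_left (nhdsWithin_le_nhds (s := Iio (π / 2)))
      rw [Real.cos_pi_div_two, mul_zero, sub_zero] at h1
      exact h1
    have ev1 := t1.eventually (lt_mem_nhds (show od K (θ + π / 2) - ε / 3 < od K (θ + π / 2) by linarith))
    have ev2 := t2.eventually (gt_mem_nhds (show (0:ℝ) < ε / 3 * (r / 2) by positivity))
    have ev3 := t3.eventually (lt_mem_nhds (show r / 2 < r by linarith))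
    have ev4 : ∀ᶠ s in 𝓝[<] (π / 2), s ∈ Ioo s1 (π / 2) := Ioo_mem_nhdsLT hs1'
    obtain ⟨s, hsa, hsb, hsc, hsd⟩ := (ev1.and (ev2.and (ev3.and ev4))).exists
    obtain ⟨g, c, hgpos, hgo, hge, hgθ, hgφ⟩ := hlev s hsd.1 hsd.2 θ
    have hs0 : 0 < s := lt_of_le_of_lt hs1 hsd.1
    have hcos : 0 < cos s := Real.cos_pos_of_mem_Ioo ⟨by linarith, hsd.2⟩
    set m := (hs K (θ + s) - hs K (θ - s)) / (2 * sin s) with hm
    set S := (g θ + g (θ + π)) / 2 with hS
    have hSpos : 0 < S := by
      have := hgpos θ
      have := hgpos (θ + π)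
      positivity
    have hgS : g θ = od K θ + S := by
      unfold od
      have := hgo θ
      rw [hS]; linarith
    -- lower bound for S
    have hSlow : (r / 2) / cos s ≤ S := by
      have e1 : od K θ ≤ R := by
        unfold od
        have := hup θ
        have := hlow (θ + π)
        linarith
      have e2 : r / cos s ≤ g θ := by
        rw [hgθ, div_le_div_iff₀ hcos (by positivity)]
        have := hlow (θ + s)
        have := hlow (θ - s)
        nlinarith
      have e3 : (r / 2) / cos s = r / cos s - (r / 2) / cos s := by ring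
      have e4 : R ≤ (r / 2) / cos s := by
        rw [le_div_iff₀ hcos]; linarith
      linarith
    set Λ := 2 * R ^ 2 / S with hΛ
    have hΛε : Λ < ε / 3 := by
      rw [hΛ, div_lt_iff₀ hSpos]
      have h1 : ε / 3 * ((r / 2) / cos s) ≤ ε / 3 * S := mul_le_mul_of_nonneg_left hSlow (by positivity)
      have h2 : 2 * R ^ 2 < ε / 3 * ((r / 2) / cos s) := by
        rw [← mul_div_assoc, lt_div_iff₀ hcos]
        exact hsb
      linarith
    have hderiv : HasDerivAt (fun δ : ℝ => cos δ * g θ + sin δ * m - Λ * δ) (m - Λ) 0 := by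
      have h1 := (((Real.hasDerivAt_cos 0).mul_const (g θ)).add
        ((Real.hasDerivAt_sin 0).mul_const m)).sub ((hasDerivAt_id (0:ℝ)).const_mul Λ)
      exact h1.congr_deriv (by simp)
    have hsl := slope_lower hderiv (ε := ε / 3) (by positivity)
    filter_upwards [hsl, self_mem_nhdsWithin] with δ hδ hδpos
    have hδ0 : 0 < δ := hδpos
    have h1 := hgφ (θ + δ)
    rw [show θ + δ - θ = δ by ring] at h1
    set T := (g (θ + δ) + g (θ + δ + π)) / 2 with hT
    have hTpos : 0 < T := by
      have := hgpos (θ + δ)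
      have := hgpos (θ + δ + π)
      positivity
    have hgT : g (θ + δ) = od K (θ + δ) + T := by
      unfold od
      have := hgo (θ + δ)
      rw [hT]; linarith
    have hTS : T - S ≤ Λ * δ := by
      have h2 := hge θ
      have h3 := hge (θ + δ)
      have h4 := (abs_le.1 (lip_sq hK hne hR0 hR habs θ δ)).2
      rw [abs_of_pos hδ0] at h4
      have h5 : T ^ 2 - S ^ 2 ≤ 2 * R ^ 2 * δ := by
        rw [hT, hS, h2, h3]; linarith
      have h6 : (T - S) * (T + S) ≤ 2 * R ^ 2 * δ := by nlinarith
      by_contra hcon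
      push Not at hcon
      have h7 : 0 < Λ := by positivity
      have h8 : 2 * R ^ 2 * δ = Λ * δ * S := by
        rw [hΛ]; field_simp
      have h9 : Λ * δ * S < (T - S) * S := mul_lt_mul_of_pos_right hcon hSpos
      have h10 : 0 < Λ * δ := by positivity
      have h11 : 0 < (T - S) * T := mul_pos (by linarith) hTpos
      nlinarith
    simp only [Real.cos_zero, Real.sin_zero, one_mul, zero_mul, mul_zero, add_zero, sub_zero] at hδ
    have h12 : (od K (θ + π / 2) - ε) * δ ≤ (m - Λ - ε / 3) * δ :=
      mul_le_mul_of_nonneg_right (by linarith) hδ0.le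
    linarith
  · intro θ
    show od K (θ + 2 * π + π / 2) = _
    rw [show θ + 2 * π + π / 2 = θ + π / 2 + 2 * π by ring, od_periodic]
  · have hc := od_continuous hK hne
    have e1 : ∫ t in (0:ℝ)..(2 * π), od K (t + π / 2) = ∫ t in (0:ℝ)..π, od K (t + π / 2) + od K (t + π + π / 2) := by
      rw [← intervalIntegral.integral_add_adjacent_intervals (b := π)
        (Continuous.intervalIntegrable (by fun_prop) _ _) (Continuous.intervalIntegrable (by fun_prop) _ _)]
      rw [intervalIntegral.integral_add (Continuous.intervalIntegrable (by fun_prop) _ _)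
        (Continuous.intervalIntegrable (by fun_prop) _ _)]
      congr 1
      have := intervalIntegral.integral_comp_add_right (a := 0) (b := π) (fun t => od K (t + π / 2)) π
      rw [this]
      congr 1 <;> ring
    rw [e1]
    have e2 : ∀ t, od K (t + π / 2) + od K (t + π + π / 2) = 0 := by
      intro t
      rw [show t + π + π / 2 = t + π / 2 + π by ring, od_anti]; ring
    simp [e2]

/-- the odd part is a first harmonic -/
theorem od_first (hK : IsCompact K) (h0 : (0 : E2) ∈ interior K) (hyp : Hyp K) :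
    ∃ v : E2, ∀ θ, od K θ = pr v θ := by
  have hd := od_deriv hK h0 hyp
  have hd2 : ∀ θ, HasDerivAt (fun θ => od K (θ + π / 2)) (- od K θ) θ := by
    intro θ
    have h1 := hd (θ + π / 2)
    have h2 := h1.comp_add_const θ (π / 2)
    rw [show θ + π / 2 + π / 2 = θ + π by ring, od_anti] at h2
    exact h2
  have ha : ∀ θ, od K θ * cos θ - od K (θ + π / 2) * sin θ = od K 0 := by
    have hda : ∀ x, HasDerivAt (fun θ => od K θ * cos θ - od K (θ + π / 2) * sin θ) 0 x := by
      intro x
      have := ((hd x).mul (Real.hasDerivAt_cos x)).sub ((hd2 x).mul (Real.hasDerivAt_sin x))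
      exact this.congr_deriv (by ring)
    intro θ
    have := is_const_of_deriv_eq_zero (fun x => (hda x).differentiableAt) (fun x => (hda x).deriv) θ 0
    simpa using this
  have hb : ∀ θ, od K θ * sin θ + od K (θ + π / 2) * cos θ = od K (π / 2) := by
    have hdb : ∀ x, HasDerivAt (fun θ => od K θ * sin θ + od K (θ + π / 2) * cos θ) 0 x := by
      intro x
      have := ((hd x).mul (Real.hasDerivAt_sin x)).add ((hd2 x).mul (Real.hasDerivAt_cos x))
      exact this.congr_deriv (by ring)
    intro θ
    have := is_const_of_deriv_eq_zero (fun x => (hdb x).differentiableAt) (fun x => (hdb x).deriv) θ 0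
    simpa using this
  refine ⟨!₂[od K 0, od K (π / 2)], fun θ => ?_⟩
  simp only [pr, Matrix.cons_val_zero, Matrix.cons_val_one]
  have h1 := ha θ
  have h2 := hb θ
  have h3 := Real.sin_sq_add_cos_sq θ
  linear_combination (cos θ) * h1 + (sin θ) * h2 - (od K θ) * h3

end Pool.Agent.Helper17K9.Str
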